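import Pool.Agent.Lib.lead.CXRat
import Pool.Agent.Lib.helper22.CXPrune
import Pool.Agent.Lib.helper22.CXDet

namespace Pool.Agent.Results.MP_4249f6_lc.Collapse

open Pool.Agent.Lib.CX Pool.Agent.Lib.helper22.CXPrune Pool.Agent.Lib.helper22.CXDet Matrix

/-- the data `A`, `l`, `u`, `λ` -/
abbrev Raw := List (List ℚ) × List ℚ × List ℚ × ℚ

def mat (x : Raw) : Matrix (Fin x.1.length) (Fin x.1.length) ℝ := .of fun i j => ((x.1.getD i []).getD j 0 : ℚ)
def lo (x : Raw) (i : ℕ) : ℚ := x.2.1.getD i 0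
def up (x : Raw) (i : ℕ) : ℚ := x.2.2.1.getD i 0

def Valid (x : Raw) : Prop :=
  0 < x.1.length ∧ (mat x).det ≠ 0 ∧ (∀ i < x.1.length, lo x i < up x i) ∧ 0 < x.2.2.2

def Pb (γ : ℕ → ℕ) (x : {x // Valid x}) : Prop := ∃ v : Fin (γ x.1.1.length + 1) → Fin x.1.1.length → ℝ,
  (∀ a (i : Fin x.1.1.length), lo x.1 i ≤ (mat x.1 *ᵥ v a) i ∧ (mat x.1 *ᵥ v a) i ≤ up x.1 i) ∧
    x.1.2.2.2 ≤ (of fun a b => (v (Fin.succ a) - v 0) ⬝ᵥ (v (Fin.succ b) - v 0)).det

def C (n : ℕ) (t : ℝ) : Prop := ∃ w : Fin (n + 1) → Fin n → ℝ, (∀ a i, 0 ≤ w a i ∧ w a i ≤ 1) ∧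
  t ≤ (of fun a => w (Fin.succ a) - w 0).det ^ 2

noncomputable def key (x : Raw) : ℝ :=
  x.2.2.2 * (mat x).det ^ 2 / (∏ i : Fin x.1.length, ((up x i : ℝ) - lo x i)) ^ 2

theorem geo (x : {x // Valid x}) : Pb id x ↔ C x.1.1.length (key x.1) := by
  obtain ⟨x, -, h1, h2, -⟩ := x
  have p : ∀ i : Fin x.1.length, (0 : ℝ) < up x i - lo x i := fun i => by
    exact_mod_cast sub_pos.2 (h2 i i.2)
  have q := Finset.prod_pos fun i (_ : i ∈ Finset.univ) => p i
  have k : ∀ v w : Fin (x.1.length + 1) → Fin x.1.length → ℝ,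
      (∀ a i, (mat x *ᵥ v a) i = lo x i + (up x i - lo x i) * w a i) →
      ((∀ a (i : Fin x.1.length), lo x i ≤ (mat x *ᵥ v a) i ∧ (mat x *ᵥ v a) i ≤ up x i) ∧
        x.2.2.2 ≤ (of fun a b => (v (Fin.succ a) - v 0) ⬝ᵥ (v (Fin.succ b) - v 0)).det ↔
      (∀ a i, 0 ≤ w a i ∧ w a i ≤ 1) ∧ key x ≤ (of fun a => w (Fin.succ a) - w 0).det ^ 2) := fun v w h => by
    refine and_congr (forall₂_congr fun a i => ?_) ?_
    · have := p i
      rw [h]
      exact ⟨fun k => ⟨by nlinarith, by nlinarith⟩, fun k => ⟨by nlinarith, by nlinarith⟩⟩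
    have a : (of fun a b => (v (Fin.succ a) - v 0) ⬝ᵥ (v (Fin.succ b) - v 0)) =
      (of fun a => v (Fin.succ a) - v 0) * (of fun a => v (Fin.succ a) - v 0)ᵀ := rfl
    have b : (of fun a => v (Fin.succ a) - v 0) * (mat x)ᵀ =
        (of fun a => w (Fin.succ a) - w 0) * diagonal fun i : Fin x.1.length => (up x i : ℝ) - lo x i := by
      ext a i
      have := congrFun (mulVec_sub (mat x) (v a.succ) (v 0)) i
      rw [Pi.sub_apply, h, h, mulVec, dotProduct_comm] at this
      rw [mul_diagonal]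
      exact this.trans (by simp; ring)
    have := congrArg det b
    rw [det_mul, det_mul, det_transpose, det_diagonal] at this
    rw [a, det_mul, det_transpose, key, div_le_iff₀ (by positivity), ← mul_pow, ← this, mul_pow, ← sq,
      mul_le_mul_iff_left₀ (by positivity)]
  refine ⟨fun ⟨v, h⟩ => ⟨fun a i => ((mat x *ᵥ v a) i - lo x i) / (up x i - lo x i), (k v _ fun a i => ?_).1 h⟩,
    fun ⟨w, h⟩ => ⟨fun a => (mat x)⁻¹ *ᵥ fun i => lo x i + (up x i - lo x i) * w a i, (k _ w fun a i => ?_).2 h⟩⟩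
  · field_simp [(p i).ne']
    ring
  · rw [mulVec_mulVec, mul_nonsing_inv _ h1.isUnit, one_mulVec]

def cd (x : Raw) : ℕ := (x.1.flatten.map Rat.den).prod
def ia (x : Raw) : List (List ℤ) := tb x.1.length fun i j =>
  ((x.1.getD i []).getD j 0).num * (cd x / ((x.1.getD i []).getD j 0).den : ℕ)
def kn (x : Raw) : ℕ := x.2.2.2.num.natAbs * (gdet (ia x)).natAbs *
  ((List.range x.1.length).map fun i => (up x i).den * (lo x i).den).prod ^ 2
def kd (x : Raw) : ℕ := x.2.2.2.den * (cd x ^ x.1.length) ^ 2 *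
  ((List.range x.1.length).map fun i => ((up x i).num * (lo x i).den - (lo x i).num * (up x i).den).natAbs).prod ^ 2

theorem pt : PT kn ∧ PT kd := by
  have h : PT fun q : ℚ => (q.num, q.den) := PT.id.cast fun _ => rfl
  have : PT Rat.num := h.fst
  have : PT Rat.den := h.snd
  have := pt_gdet
  have : PT cd := by unfold cd; fun_prop
  have : PT ia := by unfold ia tb; fun_prop
  constructor
  · unfold kn up lo; fun_prop
  · unfold kd up lo; fun_prop

theorem key_eq {x : Raw} (h : Valid x) : 0 < kd x ∧ key x = kn x / kd x := by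
  obtain ⟨-, h1, h2, h3⟩ := h
  have c : 0 < cd x := List.prod_pos (List.forall_mem_map.2 fun q _ => q.pos)
  have l : (ia x).length = x.1.length := by simp [ia, tb]
  have d : ((dN x.1.length (en (ia x)) : ℤ) : ℝ) = cd x ^ x.1.length * (mat x).det := by
    rw [dN, Int.cast_det]
    refine Eq.trans (congrArg _ ?_) ((det_smul (mat x) (cd x : ℝ)).trans (by simp))
    ext i j
    have : ((x.1.getD i []).getD j 0).den ∣ cd x := by
      by_cases a : j.1 < (x.1.getD i []).length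
      · rw [List.getD_eq_getElem _ _ a]
        exact List.dvd_prod (List.mem_map_of_mem (List.mem_flatten.2
          ⟨_, by rw [List.getD_eq_getElem _ _ i.2]; exact List.getElem_mem _, List.getElem_mem _⟩))
      · rw [List.getD_eq_default _ _ (not_lt.1 a)]
        exact one_dvd _
    simp only [ia, map_apply, of_apply, en_tb i.2 j.2, mat, Matrix.smul_apply, smul_eq_mul]
    generalize (x.1.getD i []).getD j 0 = q at *
    rw [Int.cast_mul, Int.cast_natCast, Nat.cast_div_charZero this, Rat.cast_def]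
    ring
  have g := gdet_eq (ia x) (by rw [l, ← Int.cast_ne_zero (α := ℝ), d]; positivity)
  have w : ∀ i : Fin x.1.length, (up x i : ℝ) - lo x i =
      (((up x i).num * (lo x i).den - (lo x i).num * (up x i).den).natAbs : ℝ) / ((up x i).den * (lo x i).den : ℕ) ∧
      0 < ((up x i).num * (lo x i).den - (lo x i).num * (up x i).den).natAbs := fun i => by
    have := Rat.lt_iff _ _ |>.1 (h2 i i.2)
    refine ⟨?_, by omega⟩
    rw [Nat.cast_natAbs, abs_of_pos (by omega), Rat.cast_def, Rat.cast_def]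
    push_cast
    field_simp
  have r : ∀ f : ℕ → ℕ, ((List.range x.1.length).map f).prod = ∏ i : Fin x.1.length, f i :=
    fun f => Finset.prod_range f
  have p := Finset.prod_pos fun i (_ : i ∈ Finset.univ) => (w i).2
  refine ⟨by rw [kd, r]; have := x.2.2.2.pos; positivity, ?_⟩
  rw [key, kn, kd, r, r, g, l, Finset.prod_congr rfl fun i _ => (w i).1, Finset.prod_div_distrib, ← Nat.cast_prod,
    ← Nat.cast_prod, Rat.cast_def]
  push_cast [Nat.cast_natAbs, abs_of_pos (Rat.num_pos.2 h3), abs_sq, d]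
  field_simp

theorem result : ∃ γ : ℕ → ℕ, (∀ n, 1 ≤ n → 1 ≤ γ n ∧ γ n ≤ n) ∧
    (NPHard (Pb γ) → ∀ L : List Bool → Prop, InNP L → InP L) := by
  have v : PT (Subtype.val : {x // Valid x} → Raw) := by fun_prop
  obtain ⟨a, b⟩ := pt
  refine ⟨id, fun n h => ⟨h, le_rfl⟩, prune (d := fun x => x.1.1.length) (by fun_prop) (by fun_prop)
    (fun x => key x.1) (c := fun p => decide (kn p.1.1 * kd p.2.1 ≤ kn p.2.1 * kd p.1.1)) (by fun_prop)
    (fun x y => ?_) fun x y e h => ?_⟩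
  · obtain ⟨a1, a2⟩ := key_eq x.2
    obtain ⟨b1, b2⟩ := key_eq y.2
    rw [a2, b2, div_le_div_iff₀ (by positivity) (by positivity), decide_eq_true_eq]
    norm_cast
  · rw [geo, geo, e]
    exact fun ⟨w, a, b⟩ => ⟨w, a, h.trans b⟩

end Pool.Agent.Results.MP_4249f6_lc.Collapse
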